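import Pool.Agent.helper95.FI4.SpecB

/-! Row fi4:DF4 (MP_baa4d7_al): the generalised decomposition numbers by the values on the section. -/

set_option autoImplicit false

namespace Pool.Agent.FI4

open Pool.Agent.helper58.DC Pool.Agent.DI Pool.Agent.GR Pool.Agent.OB Pool.Agent.DR Pool.Agent.FI Pool.Agent.FI3

theorem DF4 (hQRS : QRS_stmt) (hQCE : QCE_stmt) (hQEI : QEI_stmt) (hHTN : HTN_stmt)
    (hB2 : B2_stmt) : DF4_stmt := by
  intro p M hS G _ _ D K θ hG w hw hcw ψ hψ η₀ hη₀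
  have hfin : (IrrOn K).Finite := (hB2 G K).1
  have hBs : Bl M K θ ⊆ IrrOn K := fun _ h => h.1
  have hfinB : (Bl M K θ).Finite := hfin.subset hBs
  have hVfin : {v : G | v ∈ K ∧ PReg p v}.Finite := Set.toFinite _
  have hK0 : (Nat.card K : ℂ) ≠ 0 := Nat.cast_ne_zero.2 Nat.card_pos.ne'
  have h1 := (hQRS G ⊤ K le_top ψ hψ).2
  have h2 : ∀ v ∈ K, ψ (w * v) = ∑ᶠ η ∈ IrrOn K, mt K ψ η * (η w / η 1) * η v := by
    intro v hv
    rw [h1 (w * v) (K.mul_mem hw hv)]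
    refine finsum_mem_congr rfl fun η hη => ?_
    obtain ⟨n, hn, hn1, -⟩ := ((hB2 G K).2 η hη).1
    have h3 := (hQCE G K w hw hcw η hη).1 v
    have h4 : η 1 ≠ 0 := by
      rw [hn1]
      exact Nat.cast_ne_zero.2 hn.ne'
    have h5 : η (w * v) = η w / η 1 * η v := by
      rw [div_mul_eq_mul_div, eq_div_iff h4]
      exact h3
    rw [h5, mul_assoc]
  have h5 : ∑ᶠ v ∈ {v : G | v ∈ K ∧ PReg p v}, ψ (w * v) * η₀ v⁻¹ =
      ∑ η ∈ hfin.toFinset, (mt K ψ η * (η w / η 1)) *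
        ∑ᶠ v ∈ {v : G | v ∈ K ∧ PReg p v}, η v * η₀ v⁻¹ := by
    rw [finsum_mem_eq_finite_toFinset_sum _ hVfin]
    have h6 : ∀ v ∈ hVfin.toFinset, ψ (w * v) * η₀ v⁻¹ =
        ∑ η ∈ hfin.toFinset, mt K ψ η * (η w / η 1) * (η v * η₀ v⁻¹) := by
      intro v hv
      rw [h2 v ((hVfin.mem_toFinset.1 hv).1), finsum_mem_eq_finite_toFinset_sum _ hfin,
        Finset.sum_mul]
      exact Finset.sum_congr rfl fun η _ => by ring
    rw [Finset.sum_congr rfl h6, Finset.sum_comm]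
    refine Finset.sum_congr rfl fun η _ => ?_
    rw [finsum_mem_eq_finite_toFinset_sum _ hVfin, Finset.mul_sum]
  have hsub : hfinB.toFinset ⊆ hfin.toFinset := by
    intro η hη
    rw [Set.Finite.mem_toFinset] at hη ⊢
    exact hBs hη
  have hQ := (hQEI p M hS G K (Bl M K θ) (Q1_BC M K 1 θ).1).2.1 η₀ hη₀
  unfold dd
  rw [finsum_mem_eq_finite_toFinset_sum _ hfinB, h5, Finset.mul_sum, Finset.mul_sum]
  rw [← Finset.sum_subset hsub]
  · refine Finset.sum_congr rfl fun η hη => ?_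
    have h7 := hHTN p M hS G D K θ hG η (hfinB.mem_toFinset.1 hη) η₀ hη₀
    rw [← h7]
    ring
  · intro η hη hη'
    have h8 := (hQ η (hfin.mem_toFinset.1 hη) (fun h => hη' (hfinB.mem_toFinset.2 h))).2
    unfold EE at h8
    have h9 : ∑ᶠ v ∈ {v : G | v ∈ K ∧ PReg p v}, η v * η₀ v⁻¹ = 0 := by
      rcases div_eq_zero_iff.1 h8 with h | h
      · exact h
      · exact absurd h hK0
    rw [h9, mul_zero, mul_zero]

end Pool.Agent.FI4
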